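import Pool.Agent.TH50.DQ.ArchDefs
import Pool.Agent.TH50.DL.Bridge

/-!
# Project DQ: the linear form as a convergent series, general `Q` (helper986, job 4032; port of
`Pool/Agent/TH50/DL/Bridge.lean` by helper111)
-/

set_option autoImplicit false

open Polynomial

namespace Pool.Agent.TH50.DQ

namespace BrQ

open Pool.Agent.LP
open Pool.Agent.TH844.DL.BridgeAux (hsc newton' R R_eval pf_real pf_deriv TL TL_monomial)

theorem abs_lt {Q : ℤ} (hQ : 2 ≤ |Q|) : |1 / (Q : ℝ)| < 1 := by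
  have h1 : (2 : ℝ) ≤ |(Q : ℝ)| := by exact_mod_cast hQ
  rw [abs_div, abs_one, div_lt_one (by linarith)]
  linarith

theorem ne_zero {Q : ℤ} (hQ : 2 ≤ |Q|) : (Q : ℝ) ≠ 0 := by
  intro h
  have h1 : Q = 0 := by exact_mod_cast h
  rw [h1] at hQ
  norm_num at hQ

theorem ne_one {Q : ℤ} (hQ : 2 ≤ |Q|) : (Q : ℝ) - 1 ≠ 0 := by
  intro h
  have h1 : Q = 1 := by
    have : (Q : ℝ) = 1 := by linarith
    exact_mod_cast this
  rw [h1] at hQ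
  norm_num at hQ

/-! ### the series of a polynomial -/

theorem choose_sum {Q : ℤ} (hQ : 2 ≤ |Q|) (i : ℕ) :
    HasSum (fun s : ℕ => (1 / (Q : ℝ)) ^ (s + 1) * (s.choose i : ℝ)) (1 / ((Q : ℝ) - 1) ^ (i + 1)) := by
  have h1 : HasSum (fun n : ℕ => (((n + i).choose i : ℕ) : ℝ) * (1 / (Q : ℝ)) ^ n)
      (1 / (1 - (1 / (Q : ℝ))) ^ (i + 1)) :=
    hasSum_choose_mul_geometric_of_norm_lt_one i (by rw [Real.norm_eq_abs]; exact abs_lt hQ)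
  have h2 := h1.mul_left ((1 / (Q : ℝ)) ^ (i + 1))
  have h0 := ne_zero hQ
  have h0' := ne_one hQ
  have h3 : (1 / (Q : ℝ)) ^ (i + 1) * (1 / (1 - (1 / (Q : ℝ))) ^ (i + 1)) =
      1 / ((Q : ℝ) - 1) ^ (i + 1) := by
    rw [one_div_pow, one_div_mul_one_div, ← mul_pow]
    congr 2
    field_simp
  rw [h3] at h2
  rw [← hasSum_nat_add_iff' i]
  have h4 : ∑ s ∈ Finset.range i, (1 / (Q : ℝ)) ^ (s + 1) * (s.choose i : ℝ) = 0 := by
    refine Finset.sum_eq_zero fun s hs => ?_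
    rw [Nat.choose_eq_zero_of_lt (Finset.mem_range.1 hs)]
    simp
  rw [h4, sub_zero]
  refine hsc (fun n => ?_) h2
  ring

theorem EB_sum {Q : ℤ} (hQ : 2 ≤ |Q|) (q : ℚ[X]) :
    HasSum (fun s : ℕ => (1 / (Q : ℝ)) ^ (s + 1) * ((q.eval ((s : ℚ) + 1) : ℚ) : ℝ))
      ((EB Q q : ℚ) : ℝ) := by
  rw [EB_eq Q q (Nat.lt_succ_self _)]
  have h1 : HasSum (fun s : ℕ => ∑ i ∈ Finset.range (q.natDegree + 1),
      (1 / (Q : ℝ)) ^ (s + 1) * (s.choose i : ℝ) * ((fd q i 1 : ℚ) : ℝ))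
      (∑ i ∈ Finset.range (q.natDegree + 1), 1 / ((Q : ℝ) - 1) ^ (i + 1) * ((fd q i 1 : ℚ) : ℝ)) :=
    hasSum_sum fun i _ => (choose_sum hQ i).mul_right _
  convert h1 using 1
  · funext s
    rw [newton' q s]
    push_cast
    rw [Finset.mul_sum]
    refine Finset.sum_congr rfl fun i _ => ?_
    ring
  · push_cast
    refine Finset.sum_congr rfl fun i _ => ?_
    ring

/-! ### the polar parts -/

theorem li_sum {Q : ℤ} (hQ : 2 ≤ |Q|) (j k : ℕ) :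
    HasSum (fun s : ℕ => (1 / (Q : ℝ)) ^ (s + 1) * (1 / (((s : ℝ) + 1) + k) ^ j))
      ((Q : ℝ) ^ k * (li Q j - ((Tz Q j k : ℚ) : ℝ))) := by
  have h0 : Summable (fun n : ℕ => (1 / (Q : ℝ)) ^ (n + 1) / ((n : ℝ) + 1) ^ j) := by
    have h1 : Summable (fun n : ℕ => |1 / (Q : ℝ)| ^ (n + 1)) :=
      (summable_nat_add_iff 1).2 (summable_geometric_of_lt_one (abs_nonneg _) (abs_lt hQ))
    refine Summable.of_norm_bounded h1 fun n => ?_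
    rw [Real.norm_eq_abs, abs_div, abs_pow]
    have h2 : (1 : ℝ) ≤ |((n : ℝ) + 1) ^ j| := by
      have h3 : (1 : ℝ) ≤ (n : ℝ) + 1 := by
        have : (0 : ℝ) ≤ n := Nat.cast_nonneg n
        linarith
      exact (one_le_pow₀ h3).trans (le_abs_self _)
    exact div_le_self (by positivity) h2
  have h1 : HasSum (fun n : ℕ => (1 / (Q : ℝ)) ^ (n + 1) / ((n : ℝ) + 1) ^ j) (li Q j) := h0.hasSum
  rw [← hasSum_nat_add_iff' k] at h1
  have h3 := h1.mul_left ((Q : ℝ) ^ k)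
  have h4 : ((Tz Q j k : ℚ) : ℝ) =
      ∑ i ∈ Finset.range k, (1 / (Q : ℝ)) ^ (i + 1) / ((i : ℝ) + 1) ^ j := by
    unfold Tz
    have h5 : Finset.Icc 1 k = Finset.Ico 1 (k + 1) := by
      ext j; simp only [Finset.mem_Icc, Finset.mem_Ico]; omega
    rw [h5, Finset.sum_Ico_eq_sum_range, Nat.add_sub_cancel]
    push_cast
    refine Finset.sum_congr rfl fun i _ => ?_
    rw [add_comm 1 i, add_comm (1 : ℝ) (i : ℝ)]
  rw [h4]
  refine hsc (fun s => ?_) h3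
  have h6 : (1 / (Q : ℝ)) ^ (s + k + 1) = (1 / (Q : ℝ)) ^ (s + 1) * (1 / (Q : ℝ)) ^ k := by ring
  rw [h6]
  push_cast
  have h7 : (Q : ℝ) ^ k * (1 / (Q : ℝ)) ^ k = 1 := by
    rw [← mul_pow, mul_one_div_cancel (ne_zero hQ), one_pow]
  have h8 : (s : ℝ) + 1 + k = (s : ℝ) + k + 1 := by ring
  rw [h8]
  calc _ = (1 / (Q : ℝ)) ^ (s + 1) / ((s : ℝ) + k + 1) ^ j * 1 := by ring
    _ = (1 / (Q : ℝ)) ^ (s + 1) / ((s : ℝ) + k + 1) ^ j * ((Q : ℝ) ^ k * (1 / (Q : ℝ)) ^ k) := by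
      rw [h7]
    _ = _ := by ring

theorem tm_sum {Q : ℤ} (hQ : 2 ≤ |Q|) (a b : ℕ) (α β γ : ℚ)
    (hrel : (γ : ℝ) + α * li Q 1 + β * li Q 2 = 0) (q : ℚ[X]) :
    HasSum (tmQ Q a b α β (R q)) ((L Q a b α β γ q : ℚ) : ℝ) := by
  have hE1 := (EB_sum hQ (pp a b q)).mul_left (-(α : ℝ))
  have hE2 := (EB_sum hQ (derivative (pp a b q))).mul_left (β : ℝ)
  have hL : HasSum (fun s : ℕ => ∑ k ∈ Finset.Icc a b, -(α : ℝ) * ((rs a b q k : ℚ) : ℝ) *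
      ((1 / (Q : ℝ)) ^ (s + 1) * (1 / (((s : ℝ) + 1) + k) ^ 1)))
      (∑ k ∈ Finset.Icc a b, -(α : ℝ) * ((rs a b q k : ℚ) : ℝ) *
        ((Q : ℝ) ^ k * (li Q 1 - ((Tz Q 1 k : ℚ) : ℝ)))) :=
    hasSum_sum fun k _ => (li_sum hQ 1 k).mul_left _
  have hD : HasSum (fun s : ℕ => ∑ k ∈ Finset.Icc a b, -(β : ℝ) * ((rs a b q k : ℚ) : ℝ) *
      ((1 / (Q : ℝ)) ^ (s + 1) * (1 / (((s : ℝ) + 1) + k) ^ 2)))
      (∑ k ∈ Finset.Icc a b, -(β : ℝ) * ((rs a b q k : ℚ) : ℝ) *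
        ((Q : ℝ) ^ k * (li Q 2 - ((Tz Q 2 k : ℚ) : ℝ)))) :=
    hasSum_sum fun k _ => (li_sum hQ 2 k).mul_left _
  have hall := (hE1.add hE2).add (hL.add hD)
  have hval : -(α : ℝ) * ((EB Q (pp a b q) : ℚ) : ℝ) +
      β * ((EB Q (derivative (pp a b q)) : ℚ) : ℝ) +
      (∑ k ∈ Finset.Icc a b, -(α : ℝ) * ((rs a b q k : ℚ) : ℝ) *
        ((Q : ℝ) ^ k * (li Q 1 - ((Tz Q 1 k : ℚ) : ℝ))) +
      ∑ k ∈ Finset.Icc a b, -(β : ℝ) * ((rs a b q k : ℚ) : ℝ) *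
        ((Q : ℝ) ^ k * (li Q 2 - ((Tz Q 2 k : ℚ) : ℝ)))) =
      ((L Q a b α β γ q : ℚ) : ℝ) := by
    have h1 : L Q a b α β γ q = Lf Q a b α β γ q := rfl
    rw [h1]
    unfold Lf
    push_cast
    rw [← Finset.sum_add_distrib]
    have h2 : ∑ k ∈ Finset.Icc a b, (-(α : ℝ) * ((rs a b q k : ℚ) : ℝ) *
        ((Q : ℝ) ^ k * (li Q 1 - ((Tz Q 1 k : ℚ) : ℝ))) + -(β : ℝ) * ((rs a b q k : ℚ) : ℝ) *
        ((Q : ℝ) ^ k * (li Q 2 - ((Tz Q 2 k : ℚ) : ℝ)))) =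
        ∑ k ∈ Finset.Icc a b, (Q : ℝ) ^ k * ((rs a b q k : ℚ) : ℝ) *
          (γ + α * ((Tz Q 1 k : ℚ) : ℝ) + β * ((Tz Q 2 k : ℚ) : ℝ)) := by
      refine Finset.sum_congr rfl fun k _ => ?_
      have h3 : (γ : ℝ) = -(α * li Q 1) - β * li Q 2 := by linarith
      rw [h3]
      ring
    rw [h2]
    ring
  rw [hval] at hall
  refine hsc (fun s => ?_) hall
  unfold tmQ
  have hx : (0 : ℝ) < (s : ℝ) + 1 := by positivity
  rw [pf_real a b q hx, pf_deriv a b q hx]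
  have h5 : ∀ p : ℚ[X], ((p.eval ((s : ℚ) + 1) : ℚ) : ℝ) = (R p).eval ((s : ℝ) + 1) := by
    intro p
    have h6 := R_eval p ((s : ℚ) + 1)
    rw [← h6]
    push_cast
    rfl
  rw [h5, h5]
  have h6 : ∑ k ∈ Finset.Icc a b, -(α : ℝ) * ((rs a b q k : ℚ) : ℝ) *
      ((1 / (Q : ℝ)) ^ (s + 1) * (1 / (((s : ℝ) + 1) + k) ^ 1)) =
      -(α : ℝ) * (1 / (Q : ℝ)) ^ (s + 1) *
        ∑ k ∈ Finset.Icc a b, ((rs a b q k : ℚ) : ℝ) * (1 / (((s : ℝ) + 1) + k)) := by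
    rw [Finset.mul_sum]
    refine Finset.sum_congr rfl fun k _ => ?_
    rw [pow_one]
    ring
  have h7 : ∑ k ∈ Finset.Icc a b, -(β : ℝ) * ((rs a b q k : ℚ) : ℝ) *
      ((1 / (Q : ℝ)) ^ (s + 1) * (1 / (((s : ℝ) + 1) + k) ^ 2)) =
      -(β : ℝ) * (1 / (Q : ℝ)) ^ (s + 1) *
        ∑ k ∈ Finset.Icc a b, ((rs a b q k : ℚ) : ℝ) * (1 / (((s : ℝ) + 1) + k) ^ 2) := by
    rw [Finset.mul_sum]
    refine Finset.sum_congr rfl fun k _ => ?_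
    ring
  rw [h6, h7]
  ring

/-! ### linearity in the polynomial -/

theorem tm_add (Q : ℤ) (a b : ℕ) (α β : ℝ) (f g : ℝ[X]) (s : ℕ) :
    tmQ Q a b α β (f + g) s = tmQ Q a b α β f s + tmQ Q a b α β g s := by
  unfold tmQ
  rw [derivative_add, eval_add, eval_add]
  ring

theorem tm_smul (Q : ℤ) (a b : ℕ) (α β c : ℝ) (f : ℝ[X]) (s : ℕ) :
    tmQ Q a b α β (c • f) s = c * tmQ Q a b α β f s := by
  unfold tmQ
  rw [derivative_smul, eval_smul, eval_smul, smul_eq_mul, smul_eq_mul]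
  ring

end BrQ

open BrQ in
open Pool.Agent.TH844.DL.BridgeAux (hsc R TL TL_monomial) in
theorem A_bridge : S_bridge := by
  intro Q hQ a b _ _ α β γ hrel
  refine ⟨TL fun i => ((L Q a b α β γ (X ^ i) : ℚ) : ℝ), fun i => ?_, fun f => ?_⟩
  · have h := TL_monomial (fun i => ((L Q a b α β γ (X ^ i) : ℚ) : ℝ)) i 1
    rw [one_mul, Polynomial.monomial_one_right_eq_X_pow] at h
    exact h.symm
  · induction f using Polynomial.induction_on' with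
    | add f g hf hg =>
      rw [map_add]
      exact hsc (tm_add Q a b α β f g) (hf.add hg)
    | monomial i c =>
      rw [TL_monomial]
      have h1 : (monomial i c : ℝ[X]) = c • R (X ^ i) := by
        unfold R
        rw [Polynomial.map_pow, map_X, smul_eq_C_mul, C_mul_X_pow_eq_monomial]
      rw [h1]
      exact hsc (tm_smul Q a b α β c _) ((tm_sum hQ a b α β γ hrel (X ^ i)).mul_left c)

end Pool.Agent.TH50.DQ
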